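import Mathlib

/-!
# A random walk in a static unit-arrow drift field never homogenizes

The walk goes from `x` to the neighbour `z` with probability `1 - (2d-1) ε` if `x - z` is the arrow
at `x`, and with probability `ε` otherwise. The property Homogenizes is the conjunction of (i) an averaged
central limit theorem and (ii) convergence in measure to `1` of the ratio of the quenched kernel
`p_ω(n, x)` and the averaged kernel `m_1(n, x)`, uniformly for `|x| ≤ C √n`. We show that (ii) fails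
for every `d ≥ 1` and every `0 < ε < 1/(2d)`, even for `x` in `{0, ± e_i}` only and even if `m_1` is
replaced by an arbitrary positive deterministic function: one step of the chain multiplies the
kernel at `0` by a factor which depends on the arrows at the `2 d` neighbours of `0`.
-/

set_option autoImplicit false

namespace Pool.Agent.Results.MP_31ab2b_pr.NeverHomogenizes

open MeasureTheory ProbabilityTheory Filter Topology

/-- The `2 d` directions. -/
abbrev Dir (d : ℕ) : Type := Fin d × Bool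

/-- The unit vector `± e_i` of a direction. -/
def vec {d : ℕ} (a : Dir d) : Fin d → ℤ := Pi.single a.1 (if a.2 then 1 else -1)

/-- An environment: an arrow at every site of `ℤ ^ d`. -/
abbrev Env (d : ℕ) : Type := (Fin d → ℤ) → Dir d

/-- The law `μ` of the environment: independent uniform arrows. -/
noncomputable def law (d : ℕ) [NeZero d] : Measure (Env d) :=
  Measure.infinitePi fun _ : Fin d → ℤ => (PMF.uniformOfFintype (Dir d)).toMeasure

/-- The transition probability of the walk from `x` to `z`. -/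
noncomputable def trans {d : ℕ} (ε : ℝ) (ω : Env d) (x z : Fin d → ℤ) : ℝ :=
  open Classical in
  if x - z = vec (ω x) then 1 - (2 * d - 1) * ε
  else if ∃ a : Dir d, x - z = vec a then ε else 0

/-- The quenched kernel `p_ω(n, x) = P(X_n = x)` of the walk started at `0`; the neighbours of `x`
are the points `x + vec a`. -/
noncomputable def p {d : ℕ} (ε : ℝ) (ω : Env d) : ℕ → (Fin d → ℤ) → ℝ
  | 0, x => if x = 0 then 1 else 0
  | n + 1, x => ∑ a : Dir d, p ε ω n (x + vec a) * trans ε ω (x + vec a) x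

/-- The averaged kernel `m_1(n, x)`. -/
noncomputable def m1 {d : ℕ} [NeZero d] (ε : ℝ) (n : ℕ) (x : Fin d → ℤ) : ℝ :=
  ∫ ω, p ε ω n x ∂(law d)

/-- The Euclidean norm of a site. -/
noncomputable def eucl {d : ℕ} (x : Fin d → ℤ) : ℝ := Real.sqrt (∑ i, (x i : ℝ) ^ 2)

/-- Condition (i): under the averaged law `X_n / √n` converges in law to a centred Gaussian with
covariance `v` times the identity, `v > 0`. -/
def AveragedCLT (d : ℕ) [NeZero d] (ε : ℝ) : Prop :=
  ∃ v : NNReal, 0 < v ∧ ∀ f : BoundedContinuousFunction (Fin d → ℝ) ℝ,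
    Tendsto (fun n : ℕ => ∑' x : Fin d → ℤ, m1 ε n x * f fun i => (x i : ℝ) / Real.sqrt n) atTop
      (𝓝 (∫ y, f y ∂(Measure.pi fun _ : Fin d => gaussianReal 0 v)))

/-- Condition (ii): for all `C, δ > 0` the supremum over `|x| ≤ C √n` with `m_1(n, x) > 0` of
`μ (|p_ω(n, x) / m_1(n, x) - 1| > δ)` tends to `0`. -/
def KernelConverges (d : ℕ) [NeZero d] (ε : ℝ) : Prop :=
  ∀ C δ : ℝ, 0 < C → 0 < δ → Tendsto (fun n : ℕ => sSup {r : ℝ | ∃ x : Fin d → ℤ,
    eucl x ≤ C * Real.sqrt n ∧ 0 < m1 ε n x ∧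
      r = (law d).real {ω | δ < |p ε ω n x / m1 ε n x - 1|}}) atTop (𝓝 0)

/-- The model homogenizes. -/
def Homogenizes (d : ℕ) [NeZero d] (ε : ℝ) : Prop := AveragedCLT d ε ∧ KernelConverges d ε

variable {d : ℕ}

lemma vec_ne_zero (a : Dir d) : vec a ≠ 0 := by
  intro h
  have := congrFun h a.1
  simp only [vec, Pi.single_eq_same, Pi.zero_apply] at this
  split_ifs at this <;> omega

lemma vec_injective : Function.Injective (vec : Dir d → Fin d → ℤ) := by
  rintro ⟨i, s⟩ ⟨j, t⟩ h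
  have hij : i = j := by
    by_contra hne
    have := congrFun h i
    simp only [vec, Pi.single_eq_same] at this
    rw [Pi.single_eq_of_ne hne] at this
    split_ifs at this <;> omega
  subst hij
  have := congrFun h i
  simp only [vec, Pi.single_eq_same] at this
  cases s <;> cases t <;> simp_all

/-- the opposite direction -/
def opp (a : Dir d) : Dir d := (a.1, !a.2)

lemma opp_ne (a : Dir d) : opp a ≠ a := by
  rcases a with ⟨i, s⟩
  simp [opp]

lemma vec_opp (a : Dir d) : vec (opp a) = - vec a := by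
  rcases a with ⟨i, s⟩
  cases s
  · simp [vec, opp, Pi.single_neg]
  · simp [vec, opp, Pi.single_neg]

lemma eucl_vec (a : Dir d) : eucl (vec a) = 1 := by
  have h : ∑ i, ((vec a i : ℤ) : ℝ) ^ 2 = 1 := by
    rw [Finset.sum_eq_single a.1]
    · simp only [vec, Pi.single_eq_same]
      split_ifs <;> simp
    · intro j _ hj
      simp [vec, Pi.single_eq_of_ne hj]
    · simp
  simp [eucl, h]

lemma trans_nbr (ε : ℝ) (ω : Env d) (x : Fin d → ℤ) (a : Dir d) :
    trans ε ω (x + vec a) x = if ω (x + vec a) = a then 1 - (2 * d - 1) * ε else ε := by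
  unfold trans
  have h : x + vec a - x = vec a := by abel
  rw [h]
  by_cases h1 : ω (x + vec a) = a
  · rw [if_pos (by rw [h1]), if_pos h1]
  · rw [if_neg (fun h2 => h1 (vec_injective h2).symm), if_neg h1, if_pos ⟨a, rfl⟩]

lemma le_trans_nbr {ε : ℝ} (hd : (1 : ℝ) ≤ d) (hε : ε < 1 / (2 * d)) (ω : Env d)
    (x : Fin d → ℤ) (a : Dir d) : ε ≤ trans ε ω (x + vec a) x := by
  rw [trans_nbr]
  rw [lt_div_iff₀ (by linarith)] at hε
  split_ifs
  · nlinarith
  · exact le_rfl

lemma trans_nbr_le {ε : ℝ} (hd : (1 : ℝ) ≤ d) (h0 : 0 < ε) (hε : ε < 1 / (2 * d)) (ω : Env d)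
    (x : Fin d → ℤ) (a : Dir d) : trans ε ω (x + vec a) x ≤ 1 := by
  rw [trans_nbr]
  rw [lt_div_iff₀ (by linarith)] at hε
  split_ifs
  · nlinarith
  · nlinarith

lemma p_nonneg {ε : ℝ} (hd : (1 : ℝ) ≤ d) (h0 : 0 < ε) (hε : ε < 1 / (2 * d)) (ω : Env d)
    (n : ℕ) : ∀ x, 0 ≤ p ε ω n x := by
  induction n with
  | zero => intro x; simp only [p]; split_ifs <;> norm_num
  | succ n ih =>
    intro x
    simp only [p]
    exact Finset.sum_nonneg fun a _ =>
      mul_nonneg (ih _) (h0.le.trans (le_trans_nbr hd hε ω x a))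

lemma p_le {ε : ℝ} (hd : (1 : ℝ) ≤ d) (h0 : 0 < ε) (hε : ε < 1 / (2 * d)) (ω : Env d)
    (n : ℕ) : ∀ x, p ε ω n x ≤ (Fintype.card (Dir d) : ℝ) ^ n := by
  induction n with
  | zero => intro x; simp only [p, pow_zero]; split_ifs <;> norm_num
  | succ n ih =>
    intro x
    simp only [p]
    calc ∑ a : Dir d, p ε ω n (x + vec a) * trans ε ω (x + vec a) x
        ≤ ∑ _a : Dir d, (Fintype.card (Dir d) : ℝ) ^ n := by
          refine Finset.sum_le_sum fun a _ => ?_
          calc p ε ω n (x + vec a) * trans ε ω (x + vec a) x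
              ≤ p ε ω n (x + vec a) * 1 :=
                mul_le_mul_of_nonneg_left (trans_nbr_le hd h0 hε ω x a) (p_nonneg hd h0 hε ω n _)
            _ ≤ _ := by rw [mul_one]; exact ih _
      _ = (Fintype.card (Dir d) : ℝ) ^ (n + 1) := by
          rw [Finset.sum_const, Finset.card_univ, nsmul_eq_mul, pow_succ]; ring

lemma p_succ_ge {ε : ℝ} (hd : (1 : ℝ) ≤ d) (h0 : 0 < ε) (hε : ε < 1 / (2 * d)) (ω : Env d)
    (n : ℕ) (x : Fin d → ℤ) (a : Dir d) : p ε ω n (x + vec a) * ε ≤ p ε ω (n + 1) x := by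
  have h1 : p ε ω n (x + vec a) * trans ε ω (x + vec a) x ≤ p ε ω (n + 1) x := by
    simp only [p]
    exact Finset.single_le_sum (f := fun a => p ε ω n (x + vec a) * trans ε ω (x + vec a) x)
      (fun b _ => mul_nonneg (p_nonneg hd h0 hε ω n _) (h0.le.trans (le_trans_nbr hd hε ω x b)))
      (Finset.mem_univ a)
  exact (mul_le_mul_of_nonneg_left (le_trans_nbr hd hε ω x a) (p_nonneg hd h0 hε ω n _)).trans h1

lemma p_even_ge [NeZero d] {ε : ℝ} (hd : (1 : ℝ) ≤ d) (h0 : 0 < ε) (hε : ε < 1 / (2 * d))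
    (ω : Env d) (k : ℕ) :
    ε ^ (2 * k) ≤ p ε ω (2 * k) 0 ∧ ∀ a : Dir d, ε ^ (2 * k + 1) ≤ p ε ω (2 * k + 1) (vec a) := by
  have step : ∀ k, ε ^ (2 * k) ≤ p ε ω (2 * k) 0 →
      ∀ a : Dir d, ε ^ (2 * k + 1) ≤ p ε ω (2 * k + 1) (vec a) := by
    intro k hk a
    have h := p_succ_ge hd h0 hε ω (2 * k) (vec a) (opp a)
    rw [vec_opp, add_neg_cancel] at h
    refine le_trans ?_ h
    rw [pow_succ]
    exact mul_le_mul_of_nonneg_right hk h0.le
  induction k with
  | zero =>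
    have h : ε ^ (2 * 0) ≤ p ε ω (2 * 0) 0 := by simp [p]
    exact ⟨h, step 0 h⟩
  | succ k ih =>
    have h : ε ^ (2 * (k + 1)) ≤ p ε ω (2 * (k + 1)) 0 := by
      have a : Dir d := (0, true)
      have h1 := p_succ_ge hd h0 hε ω (2 * k + 1) 0 a
      rw [zero_add] at h1
      rw [show 2 * (k + 1) = 2 * k + 1 + 1 by ring]
      refine le_trans ?_ h1
      rw [pow_succ]
      exact mul_le_mul_of_nonneg_right (ih.2 a) h0.le
    exact ⟨h, step (k + 1) h⟩

lemma measurable_trans (ε : ℝ) (x z : Fin d → ℤ) : Measurable fun ω : Env d => trans ε ω x z := by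
  have h : (fun ω : Env d => trans ε ω x z) = (fun b : Dir d =>
      (open Classical in if x - z = vec b then 1 - (2 * (d : ℝ) - 1) * ε
        else if ∃ a : Dir d, x - z = vec a then ε else 0)) ∘ fun ω : Env d => ω x := by
    ext ω; rfl
  rw [h]
  exact (measurable_of_finite _).comp (measurable_pi_apply x)

lemma measurable_p (ε : ℝ) (n : ℕ) : ∀ x, Measurable fun ω : Env d => p ε ω n x := by
  induction n with
  | zero => intro x; simp only [p]; exact measurable_const
  | succ n ih =>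
    intro x
    simp only [p]
    exact Finset.measurable_sum _ fun a _ => (ih _).mul (measurable_trans ε _ _)

instance [NeZero d] : IsProbabilityMeasure (law d) := by
  unfold law; infer_instance

lemma integrable_p [NeZero d] {ε : ℝ} (hd : (1 : ℝ) ≤ d) (h0 : 0 < ε) (hε : ε < 1 / (2 * d))
    (n : ℕ) (x : Fin d → ℤ) : Integrable (fun ω : Env d => p ε ω n x) (law d) := by
  refine Integrable.of_bound (measurable_p ε n x).aestronglyMeasurable
    ((Fintype.card (Dir d) : ℝ) ^ n) (Eventually.of_forall fun ω => ?_)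
  rw [Real.norm_of_nonneg (p_nonneg hd h0 hε ω n x)]
  exact p_le hd h0 hε ω n x

lemma m1_pos [NeZero d] {ε : ℝ} (hd : (1 : ℝ) ≤ d) (h0 : 0 < ε) (hε : ε < 1 / (2 * d))
    {n : ℕ} {x : Fin d → ℤ} {c : ℝ} (hc : 0 < c) (h : ∀ ω : Env d, c ≤ p ε ω n x) :
    0 < m1 ε n x := by
  refine hc.trans_le ?_
  have h1 : ∫ _ω : Env d, c ∂(law d) ≤ m1 ε n x :=
    integral_mono (integrable_const c) (integrable_p hd h0 hε n x) h
  have h2 : ∫ _ω : Env d, c ∂(law d) = c := by simp
  rwa [h2] at h1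

/-- the probability of prescribed arrows at the neighbours of the origin -/
lemma law_prescribed [NeZero d] (g : Dir d → Dir d) :
    (law d).real {ω | ∀ a, ω (vec a) = g a} = ((2 * d : ℝ) ^ (2 * d))⁻¹ := by
  classical
  have hset : {ω : Env d | ∀ a, ω (vec a) = g a} =
      Set.pi (↑(Finset.univ.image (vec : Dir d → Fin d → ℤ)) : Set (Fin d → ℤ))
        (fun x => {b : Dir d | ∀ a, vec a = x → b = g a}) := by
    ext ω
    simp only [Set.mem_ofPred_eq, Set.mem_pi, Finset.coe_image, Finset.coe_univ, Set.image_univ,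
      Set.mem_range]
    constructor
    · rintro h x ⟨a, rfl⟩ b hb
      rw [vec_injective hb]
      exact h a
    · intro h a
      exact h (vec a) ⟨a, rfl⟩ a rfl
  have hm : (law d) {ω : Env d | ∀ a, ω (vec a) = g a} =
      ∏ _a : Dir d, ((Fintype.card (Dir d) : ENNReal))⁻¹ := by
    rw [hset]
    unfold law
    rw [Measure.infinitePi_pi _ (fun x _ => MeasurableSet.of_discrete),
      Finset.prod_image (fun a _ b _ h => vec_injective h)]
    refine Finset.prod_congr rfl fun a _ => ?_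
    have : {b : Dir d | ∀ a', vec a' = vec a → b = g a'} = {g a} := by
      ext b
      simp only [Set.mem_ofPred_eq, Set.mem_singleton_iff]
      constructor
      · intro h; exact h a rfl
      · rintro rfl a' ha'
        rw [vec_injective ha']
    rw [this, PMF.toMeasure_apply_singleton _ _ (MeasurableSet.of_discrete),
      PMF.uniformOfFintype_apply]
  rw [measureReal_def, hm, Finset.prod_const, Finset.card_univ, ENNReal.toReal_pow,
    ENNReal.toReal_inv, ENNReal.toReal_natCast]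
  simp only [Fintype.card_prod, Fintype.card_fin, Fintype.card_bool]
  push_cast
  rw [inv_pow, mul_comm (d : ℝ) 2, mul_comm d 2]

/-- The key step: for every deterministic positive normalisation `F` the kernel is at some
`vec a` at time `n` or at `0` at time `n + 1` far from `F` with probability at least
`(2d)^(-2d) / (2d+1)`. -/
lemma key [NeZero d] {ε δ : ℝ} (hd : (1 : ℝ) ≤ d) (h0 : 0 < ε) (hε : ε < 1 / (2 * d))
    (hδ0 : 0 < δ) (hδ1 : δ < 1)
    (hδ : (1 + δ) ^ 2 * ε < (1 - δ) ^ 2 * (1 - (2 * d - 1) * ε)) (n : ℕ)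
    (F : Dir d → ℝ) (G : ℝ) (hF : ∀ a, 0 < F a) (hG : 0 < G) :
    (∃ a : Dir d, ((2 * d : ℝ) ^ (2 * d))⁻¹ / (2 * d + 1) ≤
      (law d).real {ω | δ < |p ε ω n (vec a) / F a - 1|}) ∨
    ((2 * d : ℝ) ^ (2 * d))⁻¹ / (2 * d + 1) ≤
      (law d).real {ω | δ < |p ε ω (n + 1) 0 / G - 1|} := by
  by_contra hcon
  push Not at hcon
  obtain ⟨h1, h2⟩ := hcon
  set c : ℝ := ((2 * d : ℝ) ^ (2 * d))⁻¹ with hc
  set B : Set (Env d) := (⋃ a : Dir d, {ω | δ < |p ε ω n (vec a) / F a - 1|}) ∪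
    {ω | δ < |p ε ω (n + 1) 0 / G - 1|} with hB
  have hBm : (law d).real B < c := by
    have hle : (law d).real B ≤ ∑ a : Dir d, (law d).real {ω | δ < |p ε ω n (vec a) / F a - 1|} +
        (law d).real {ω | δ < |p ε ω (n + 1) 0 / G - 1|} :=
      (measureReal_union_le _ _).trans
        (add_le_add (measureReal_iUnion_fintype_le _) le_rfl)
    have hlt : ∑ a : Dir d, (law d).real {ω | δ < |p ε ω n (vec a) / F a - 1|} +
        (law d).real {ω | δ < |p ε ω (n + 1) 0 / G - 1|} <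
        ∑ _a : Dir d, c / (2 * d + 1) + c / (2 * d + 1) := by
      refine add_lt_add_of_le_of_lt (Finset.sum_le_sum fun a _ => (h1 a).le) h2
    have heq : ∑ _a : Dir d, c / (2 * d + 1) + c / (2 * d + 1) = c := by
      rw [Finset.sum_const, Finset.card_univ, nsmul_eq_mul]
      simp only [Fintype.card_prod, Fintype.card_fin, Fintype.card_bool]
      push_cast
      field_simp
    linarith
  have hex : ∀ g : Dir d → Dir d, ∃ ω : Env d, (∀ a, ω (vec a) = g a) ∧ ω ∉ B := by
    intro g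
    by_contra hno
    push Not at hno
    have hsub : {ω : Env d | ∀ a, ω (vec a) = g a} ⊆ B := fun ω hω => hno ω hω
    have := measureReal_mono (μ := law d) hsub
    rw [law_prescribed g] at this
    linarith
  have hS : 0 < ∑ a, F a :=
    Finset.sum_pos (fun a _ => hF a) ⟨((0 : Fin d), true), Finset.mem_univ _⟩
  have hgood : ∀ ω : Env d, ω ∉ B →
      (∀ a, (1 - δ) * F a ≤ p ε ω n (vec a) ∧ p ε ω n (vec a) ≤ (1 + δ) * F a) ∧
      (1 - δ) * G ≤ p ε ω (n + 1) 0 ∧ p ε ω (n + 1) 0 ≤ (1 + δ) * G := by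
    intro ω hω
    simp only [hB, Set.mem_union, Set.mem_iUnion, Set.mem_ofPred_eq, not_or, not_exists,
      not_lt] at hω
    obtain ⟨h3, h4⟩ := hω
    have aux : ∀ u v : ℝ, 0 < v → |u / v - 1| ≤ δ → (1 - δ) * v ≤ u ∧ u ≤ (1 + δ) * v := by
      intro u v hv h
      rw [abs_le] at h
      constructor
      · have : 1 - δ ≤ u / v := by linarith [h.1]
        rwa [le_div_iff₀ hv] at this
      · have : u / v ≤ 1 + δ := by linarith [h.2]
        rwa [div_le_iff₀ hv] at this
    exact ⟨fun a => aux _ _ (hF a) (h3 a), aux _ _ hG h4⟩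
  obtain ⟨ω₁, hω₁, hb₁⟩ := hex id
  obtain ⟨ω₂, hω₂, hb₂⟩ := hex opp
  obtain ⟨h5, h6, h7⟩ := hgood ω₁ hb₁
  obtain ⟨h8, h9, h10⟩ := hgood ω₂ hb₂
  have e1 : p ε ω₁ (n + 1) 0 = (1 - (2 * d - 1) * ε) * ∑ a, p ε ω₁ n (vec a) := by
    simp only [p]
    rw [Finset.mul_sum]
    refine Finset.sum_congr rfl fun a _ => ?_
    rw [trans_nbr, zero_add, if_pos (by simpa using hω₁ a), mul_comm]
  have e2 : p ε ω₂ (n + 1) 0 = ε * ∑ a, p ε ω₂ n (vec a) := by
    simp only [p]
    rw [Finset.mul_sum]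
    refine Finset.sum_congr rfl fun a _ => ?_
    rw [trans_nbr, zero_add, if_neg (by rw [hω₂ a]; exact opp_ne a), mul_comm]
  have s1 : (1 - δ) * ∑ a, F a ≤ ∑ a, p ε ω₁ n (vec a) := by
    rw [Finset.mul_sum]; exact Finset.sum_le_sum fun a _ => (h5 a).1
  have s2 : ∑ a, p ε ω₂ n (vec a) ≤ (1 + δ) * ∑ a, F a := by
    rw [Finset.mul_sum]; exact Finset.sum_le_sum fun a _ => (h8 a).2
  set S := ∑ a, F a
  have hA : 0 < 1 - (2 * (d : ℝ) - 1) * ε := by
    rw [lt_div_iff₀ (by linarith)] at hε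
    nlinarith
  have k1 : (1 - (2 * d - 1) * ε) * ((1 - δ) * S) ≤ (1 + δ) * G := by
    refine le_trans ?_ h7
    rw [e1]
    exact mul_le_mul_of_nonneg_left s1 hA.le
  have k2 : (1 - δ) * G ≤ ε * ((1 + δ) * S) := by
    refine h9.trans ?_
    rw [e2]
    exact mul_le_mul_of_nonneg_left s2 h0.le
  have k3 : (1 - δ) * ((1 - (2 * d - 1) * ε) * ((1 - δ) * S)) ≤ (1 - δ) * ((1 + δ) * G) :=
    mul_le_mul_of_nonneg_left k1 (by linarith)
  have k4 : (1 + δ) * ((1 - δ) * G) ≤ (1 + δ) * (ε * ((1 + δ) * S)) :=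
    mul_le_mul_of_nonneg_left k2 (by linarith)
  have k5 : (1 + δ) ^ 2 * ε * S < (1 - δ) ^ 2 * (1 - (2 * d - 1) * ε) * S :=
    mul_lt_mul_of_pos_right hδ hS
  nlinarith

lemma exists_delta {ε A : ℝ} (h0 : 0 < ε) (hA : ε < A) :
    ∃ δ : ℝ, 0 < δ ∧ δ < 1 ∧ (1 + δ) ^ 2 * ε < (1 - δ) ^ 2 * A := by
  have hApos : 0 < A := h0.trans hA
  refine ⟨(A - ε) / (4 * (A + ε)), by apply div_pos <;> linarith, ?_, ?_⟩
  · rw [div_lt_one (by linarith)]; linarith
  · set δ := (A - ε) / (4 * (A + ε)) with hδ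
    have h1 : δ * (4 * (A + ε)) = A - ε := by
      rw [hδ]; field_simp
    have hδ0 : 0 < δ := by rw [hδ]; apply div_pos <;> linarith
    have hδ1 : δ < 1 := by rw [hδ, div_lt_one (by linarith)]; linarith
    nlinarith [mul_pos hδ0 hApos, mul_pos hδ0 h0, mul_pos (mul_pos hδ0 hδ0) hApos,
      mul_pos (mul_pos hδ0 hδ0) h0]

lemma not_kernelConverges [NeZero d] {ε : ℝ} (h0 : 0 < ε) (hε : ε < 1 / (2 * d)) :
    ¬ KernelConverges d ε := by
  intro hK
  have hd : (1 : ℝ) ≤ d := by exact_mod_cast Nat.one_le_iff_ne_zero.2 (NeZero.ne d)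
  have hA : ε < 1 - (2 * d - 1) * ε := by
    rw [lt_div_iff₀ (by linarith)] at hε
    nlinarith
  obtain ⟨δ, hδ0, hδ1, hδ⟩ := exists_delta h0 hA
  have hc : 0 < ((2 * d : ℝ) ^ (2 * d))⁻¹ / (2 * d + 1) := by positivity
  have hlim := hK 1 δ one_pos hδ0
  obtain ⟨N, hN⟩ := eventually_atTop.1 (hlim.eventually_lt_const hc)
  have hbdd : ∀ n : ℕ, BddAbove {r : ℝ | ∃ x : Fin d → ℤ, eucl x ≤ 1 * Real.sqrt n ∧
      0 < m1 ε n x ∧ r = (law d).real {ω | δ < |p ε ω n x / m1 ε n x - 1|}} := by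
    intro n
    refine ⟨1, ?_⟩
    rintro r ⟨x, -, -, rfl⟩
    exact measureReal_le_one
  have hpos1 : ∀ a : Dir d, 0 < m1 ε (2 * N + 1) (vec a) := fun a =>
    m1_pos hd h0 hε (pow_pos h0 (2 * N + 1)) fun ω => (p_even_ge hd h0 hε ω N).2 a
  have hpos2 : 0 < m1 ε (2 * N + 1 + 1) (0 : Fin d → ℤ) := by
    refine m1_pos hd h0 hε (pow_pos h0 (2 * (N + 1))) fun ω => ?_
    have := (p_even_ge hd h0 hε ω (N + 1)).1
    rwa [show 2 * (N + 1) = 2 * N + 1 + 1 by ring] at this ⊢
  rcases key hd h0 hε hδ0 hδ1 hδ (2 * N + 1) (fun a => m1 ε (2 * N + 1) (vec a))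
    (m1 ε (2 * N + 1 + 1) 0) hpos1 hpos2 with ⟨a, ha⟩ | h
  · have h1 := hN (2 * N + 1) (by omega)
    have h2 := le_csSup (hbdd (2 * N + 1)) ⟨vec a, by
      rw [eucl_vec, one_mul]
      exact Real.one_le_sqrt.2 (by push_cast; nlinarith [Nat.cast_nonneg (α := ℝ) N]), hpos1 a, rfl⟩
    linarith
  · have h1 := hN (2 * N + 1 + 1) (by omega)
    have h2 := le_csSup (hbdd (2 * N + 1 + 1)) ⟨0, by
      simp only [eucl, Pi.zero_apply, Int.cast_zero, ne_eq, OfNat.ofNat_ne_zero, not_false_eq_true,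
        zero_pow, Finset.sum_const_zero, Real.sqrt_zero, one_mul]
      exact Real.sqrt_nonneg _, hpos2, rfl⟩
    linarith

/-- (1) The model homogenizes for no `d ≥ 1` and no `0 < ε < 1/(2d)`, since (ii) fails. (2) In
particular the answer to Q1 is negative for every `d ≥ 3`. (3) Condition (ii) fails for every
normalisation: for every deterministic positive function `f` and every `n`, if
`(1+δ)² ε < (1-δ)² (1-(2d-1)ε)`, `0 < δ < 1`, then the ratio of the quenched kernel and `f` differs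
by more than `δ` from `1` with probability at least `(2d)^(-2d) / (2d+1)` at time `n` at a neighbour
of the origin or at time `n + 1` at the origin. -/
theorem result :
    (∀ (d : ℕ) [NeZero d] (ε : ℝ), 0 < ε → ε < 1 / (2 * d) →
      ¬ KernelConverges d ε ∧ ¬ Homogenizes d ε) ∧
    (∀ (d : ℕ) [NeZero d], 3 ≤ d →
      ¬ ∃ ε₀ : ℝ, 0 < ε₀ ∧ ∀ ε : ℝ, 0 < ε → ε < ε₀ → Homogenizes d ε) ∧
    (∀ (d : ℕ) [NeZero d] (ε δ : ℝ), 0 < ε → ε < 1 / (2 * d) → 0 < δ → δ < 1 →
      (1 + δ) ^ 2 * ε < (1 - δ) ^ 2 * (1 - (2 * d - 1) * ε) →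
      ∀ f : ℕ → (Fin d → ℤ) → ℝ, (∀ n x, 0 < f n x) → ∀ n : ℕ,
        (∃ a : Dir d, ((2 * d : ℝ) ^ (2 * d))⁻¹ / (2 * d + 1) ≤
          (law d).real {ω | δ < |p ε ω n (vec a) / f n (vec a) - 1|}) ∨
        ((2 * d : ℝ) ^ (2 * d))⁻¹ / (2 * d + 1) ≤
          (law d).real {ω | δ < |p ε ω (n + 1) 0 / f (n + 1) 0 - 1|}) := by
  refine ⟨fun d _ ε h0 hε => ⟨not_kernelConverges h0 hε, fun h => not_kernelConverges h0 hε h.2⟩,
    ?_, ?_⟩
  · intro d _ hd3 h
    obtain ⟨ε₀, hε₀, h⟩ := h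
    have hd : (0 : ℝ) < 1 / (2 * d) := by
      have : (3 : ℝ) ≤ d := by exact_mod_cast hd3
      positivity
    have h1 := h (min ε₀ (1 / (2 * d)) / 2) (by positivity)
      (lt_of_lt_of_le (half_lt_self (by positivity)) (min_le_left _ _))
    exact not_kernelConverges (by positivity)
      (lt_of_lt_of_le (half_lt_self (by positivity)) (min_le_right _ _)) h1.2
  · intro d _ ε δ h0 hε hδ0 hδ1 hδ f hf n
    have hd : (1 : ℝ) ≤ d := by exact_mod_cast Nat.one_le_iff_ne_zero.2 (NeZero.ne d)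
    exact key hd h0 hε hδ0 hδ1 hδ n (fun a => f n (vec a)) (f (n + 1) 0) (fun a => hf _ _) (hf _ _)

end Pool.Agent.Results.MP_31ab2b_pr.NeverHomogenizes
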